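import Pool.Agent.Run7.h232.Pinch.Final

/-!
# The optimal pointwise pinching constant forcing a positive curvature operator

For every `d ≥ 2` the infimum of the set of those `δ` in `(0, 1]` such that every pointwise
`δ`-pinched Riemannian `d`-manifold has positive curvature operator is `(2m - 2) / (2m + 1)`,
where `m` is the integer part of `d / 2`.
-/

open Run7.h232.Pinch

/-- The infimum `δ(d)` of `PinchSet d` equals `(2 ⌊d/2⌋ - 2) / (2 ⌊d/2⌋ + 1)`. -/
theorem Pool.Agent.Results.MP_c9e91a_gt.OptimalPinching.result (d : ℕ) (hd : 2 ≤ d) :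
    IsGLB (PinchSet d) ((2 * ((d / 2 : ℕ) : ℝ) - 2) / (2 * ((d / 2 : ℕ) : ℝ) + 1)) :=
  isGLB_pinchSet hd
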